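import Pool.Agent.GA.TreeMain

/-!
The strong Atiyah conjecture, over every subfield `K` of `ℂ`, for the free abelianized extensions `P / [R, R]` of
groups `P / R`: `P` a countable group acting without inversions on a countable tree with finite vertex stabilisers
(for instance a free group acting on its Cayley tree), `R` a normal subgroup which acts freely on the vertices (any
normal subgroup if `P` is free). Nothing is assumed about `P / R`.
-/

set_option autoImplicit false

open Pool.WeakAtiyah

namespace Pool.Agent.Results.MP_585e9a_al.FreeAbelianizedExtensions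

/-- Let a countable group `P` act without inversions on a countable tree `T` with finite vertex stabilisers, and let
`R` be a normal subgroup of `P` which acts freely on the vertices of `T`. Then, for every subfield `K` of `ℂ` and
`m > 0`, all von Neumann ranks of matrices over `K[P / [R, R]]` lie in `(1/m) ℤ` if and only if `m` is a common
multiple of the orders of the finite subgroups of `P / [R, R]`, if and only if `m` is a common multiple of the orders
of the vertex stabilisers. -/
theorem result (K : Subfield ℂ) (P V : Type) [Group P] [Countable P] [Countable V] [MulAction P V]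
    (T : SimpleGraph V) (hT : T.IsTree) (hA : ∀ (g : P) v w, T.Adj v w → T.Adj (g • v) (g • w))
    (hI : ∀ (g : P) v w, T.Adj v w → g • v = w → g • w ≠ v)
    (hfin : ∀ v : V, Finite (MulAction.stabilizer P v)) (R : Subgroup P) [R.Normal]
    (hR : ∀ r ∈ R, ∀ v : V, r • v = v → r = 1) (m : ℕ) (hm : 0 < m) :
    (RanksIn K (P ⧸ ⁅R, R⁆) m ↔ ∀ F : Subgroup (P ⧸ ⁅R, R⁆), Finite F → Nat.card F ∣ m) ∧
    (RanksIn K (P ⧸ ⁅R, R⁆) m ↔ ∀ v : V, Nat.card (MulAction.stabilizer P v) ∣ m) :=
  Pool.GA.tree_iff T hT hA hI hfin R hR K m hm

end Pool.Agent.Results.MP_585e9a_al.FreeAbelianizedExtensions
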