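import Pool.Agent.ATY.H14

/-!
# The strong Atiyah conjecture for groups with a hierarchy

`Hier n A`: the group `A` is built from the trivial group by actions on trees (without inversions, all vertex stabilisers
already built, NO condition on the edge stabilisers), passage to subgroups, directed unions and overgroups of finite index;
`n` is the bound for the denominators: it is multiplied by the index when one passes to an overgroup of finite index.
-/

set_option autoImplicit false

open Pool.WeakAtiyah

namespace Pool.Agent.Results.MP_585e9a_al.Hierarchies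

/-- The smallest relation between positive integers `n` and groups `A` with the following closure properties. -/
inductive Hier : ℕ → (A : Type) → [Group A] → Prop
  /-- the trivial group, with `n = 1` -/
  | triv (A : Type) [Group A] [Subsingleton A] : Hier 1 A
  /-- a group which acts by automorphisms without inversions on a tree `T` with vertex stabilisers in the class -/
  | tree (n : ℕ) (A V : Type) [Group A] [MulAction A V] (T : SimpleGraph V) (hT : T.IsTree)
      (hA : ∀ (g : A) (v w : V), T.Adj v w → T.Adj (g • v) (g • w))
      (hI : ∀ (g : A) (v w : V), T.Adj v w → g • v = w → g • w ≠ v)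
      (h : ∀ v : V, Hier n (MulAction.stabilizer A v)) : Hier n A
  /-- a group which embeds in a group in the class -/
  | sub (n : ℕ) (A B : Type) [Group A] [Group B] (f : B →* A) (hf : Function.Injective f) (h : Hier n A) : Hier n B
  /-- a group such that every finite subset lies in a subgroup in the class -/
  | union (n : ℕ) (A : Type) [Group A] (B : Finset A → Subgroup A) (hB : ∀ S : Finset A, ∀ g ∈ S, g ∈ B S)
      (h : ∀ S : Finset A, Hier n (B S)) : Hier n A
  /-- a group with a subgroup of finite index in the class -/
  | finiteIndex (n : ℕ) (A : Type) [Group A] (N : Subgroup A) (hN : N.index ≠ 0) (h : Hier n N) : Hier (n * N.index) A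
  /-- multiples of `n` -/
  | dvd (m n : ℕ) (A : Type) [Group A] (hn : 0 < n) (hmn : m ∣ n) (h : Hier m A) : Hier n A

lemma good {n : ℕ} {A : Type} [Group A] (h : Hier n A) : 0 < n ∧ ATY.Good n A := by
  induction h with
  | triv A => exact ⟨one_pos, ATY.Good.triv A⟩
  | tree n A V T hT hA hI h ih =>
    obtain ⟨v⟩ := hT.connected.nonempty
    exact ⟨(ih v).1, ATY.Good.tree (ih v).1 hT hA hI fun v => (ih v).2⟩
  | sub n A B f hf h ih => exact ⟨ih.1, ih.2.of_injective f hf⟩
  | union n A B hB h ih => exact ⟨(ih ∅).1, ATY.Good.union (ih ∅).1 fun S => ⟨B S, hB S, (ih S).2⟩⟩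
  | finiteIndex n A N hN h ih =>
    have : N.FiniteIndex := ⟨hN⟩
    exact ⟨Nat.mul_pos ih.1 (Nat.pos_of_ne_zero hN), ATY.Good.of_finiteIndex ih.1 N ih.2⟩
  | dvd m n A hn hmn h ih => exact ⟨hn, ih.2.dvd hn hmn⟩

/-- If `Hier n G`, then for every subfield `K` of `ℂ` all von Neumann ranks of finite matrices over `K[G]` lie in `(1/n) ℤ`. -/
theorem result (n : ℕ) (G : Type) [Group G] (h : Hier n G) (K : Subfield ℂ) : 0 < n ∧ RanksIn K G n :=
  ⟨(good h).1, ATY.ranksIn_of_top (good h).2.ranks⟩

end Pool.Agent.Results.MP_585e9a_al.Hierarchies
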