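import Pool.Agent.ATY.F2

/-!
A group `G` acts without inversions on trees `T 0, …, T (r - 1)` such that for each `i` the stabiliser of a vertex has finite
orbits on the neighbours (equivalently: edge stabilisers have finite index in vertex stabilisers). Bounded denominators of the
von Neumann ranks pass from the stabilisers of the points of the product of the trees to `G`, with the same denominator.
-/

set_option autoImplicit false

open Pool.WeakAtiyah

namespace Pool.Agent.Results.MP_585e9a_al.ProductsOfTrees

/-- Let `K` be a subfield of `ℂ` and let `G` act on the trees `T i` (`i < r`) by automorphisms without inversions, such that for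
adjacent vertices `v`, `w` of `T i` the orbit of `w` under the stabiliser of `v` is finite. If for every choice of vertices `v i`
of the trees `T i` the ranks over the group algebra over `K` of the common stabiliser of the `v i` lie in `(1/n) ℤ`, then the
ranks over `K[G]` lie in `(1/n) ℤ`. -/
theorem result (K : Subfield ℂ) (n : ℕ) (hn : 0 < n) (G : Type) [Group G] (r : ℕ) (V : Fin r → Type)
    [∀ i, MulAction G (V i)] (T : ∀ i, SimpleGraph (V i)) (hT : ∀ i, (T i).IsTree)
    (hA : ∀ (i : Fin r) (g : G) (v w : V i), (T i).Adj v w → (T i).Adj (g • v) (g • w))
    (hI : ∀ (i : Fin r) (g : G) (v w : V i), (T i).Adj v w → g • v = w → g • w ≠ v)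
    (hF : ∀ (i : Fin r) (v w : V i), (T i).Adj v w → (MulAction.orbit (MulAction.stabilizer G v) w).Finite)
    (hR : ∀ v : ∀ i, V i, RanksIn K (⨅ i, MulAction.stabilizer G (v i) : Subgroup G) n) : RanksIn K G n :=
  ATY.trees_main hn r hT hA hI hF hR

end Pool.Agent.Results.MP_585e9a_al.ProductsOfTrees
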