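import Pool.Agent.Helper49.WA.Main

/-!
The weak Atiyah conjecture (bounded denominators of von Neumann ranks over `K[G]`) and the strong one
(integral ranks), `K` a subfield of `ℂ`:

* they are equivalent for each single group `G` which contains a copy of `G × G`;
* the weak conjecture for all countable torsion-free groups is equivalent to the strong conjecture for all
  countable torsion-free groups, and it implies that `K[G]` has no zero divisors for these groups.
-/

set_option autoImplicit false

open Pool.WeakAtiyah

namespace Pool.Agent.Results.MP_585e9a_al.TorsionFreeStrong

/-- For every subfield `K` of `ℂ`: for every group `G` with an injective homomorphism `G × G → G`, bounded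
denominators of the von Neumann ranks over `K[G]` are equivalent to integral ranks; and all countable
torsion-free groups have bounded denominators over `K` if and only if all countable torsion-free groups have
integral ranks over `K` and group algebras over `K` without zero divisors. -/
theorem result (K : Subfield ℂ) :
    (∀ (G : Type) [Group G] (f : G × G →* G), Function.Injective f → (Weak K G ↔ Integral K G)) ∧
    ((∀ (G : Type) [Group G] [Countable G], TorsionFree G → Weak K G) ↔
      ∀ (G : Type) [Group G] [Countable G], TorsionFree G →
        Integral K G ∧ NoZeroDivisors (MonoidAlgebra K G)) := by
  refine ⟨fun G _ f hf => ⟨integral_of_weak_of_sq f hf, weak_of_integral⟩, fun h G _ _ hG => ?_,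
    fun h G _ _ hG => weak_of_integral (h G hG).1⟩
  have h1 : Integral K G := integral_of_weak_dp (h (dp G) (torsionFree_dp hG))
  exact ⟨h1, noZeroDivisors_of_integral h1⟩

end Pool.Agent.Results.MP_585e9a_al.TorsionFreeStrong
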